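import Pool.Agent.Helper84.KR.Rate
import Pool.Agent.Helper66.MT.Lfm
import Pool.Agent.Helper24.T3.Qn

/-! Literal forms from matrices which are typically small at the point. -/

set_option autoImplicit false

namespace Pool.Agent.Helper93.NSL

open Finset Filter Topology Matrix Pool.Agent.Helper69.RK Pool.Agent.Helper31.EC Pool.Agent.Helper31.EC.Sp
open Pool.Agent.Helper40.EL Pool.Agent.Helper89.LX Pool.Agent.Helper3.LF Pool.Agent.Helper84.MT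
open Pool.Agent.Helper95.LF (PdM)
open Pool.Agent.Helper49.KL (LF)
open Pool.Agent.Helper84.KR (admf_lf lf_leak)
open Pool.Agent.Helper66.MT (capg capg_Cpd capg_eq)

noncomputable section

variable {S : Sp} {ι : Type} [Fintype ι] [DecidableEq ι] {κ : Type}

/-- matrices above the identity which are typically small are typically below the cap -/
theorem cap_typ (Φ : Gau S ι) (A : ∀ k, (S.F k).Ω → Matrix ι ι ℝ)
    (h1 : ∀ᶠ k in UF, ∀ ω, (S.F k).μ ω ≠ 0 → (A k ω).IsSymm ∧ ∀ x, x ⬝ᵥ x ≤ qf (A k ω) x) {K : ℕ → ℝ}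
    (hK : S.Sub K) (hT : Typ (fun k ω => Φ.φ k ω (A k ω) ≤ K k)) :
    Typ (fun k ω => Cpd (Φ.cp k) (A k ω)) := by
  refine typ_mono hT ?_
  filter_upwards [h1, Φ.cap, hK.eventually_le one_pos] with k a b c ω hω hφ
  obtain ⟨g1, g2⟩ := a ω hω
  refine ⟨g1, g2, fun x => ?_⟩
  refine (b _ hω _ (pdM_of_one_le g1 g2) x).trans ?_
  apply mul_le_mul_of_nonneg_right _ (dot_self_nonneg x)
  unfold Gau.cp
  rw [add_mul, Real.rpow_add (by norm_num)]
  exact mul_le_mul_of_nonneg_left (hφ.trans (le_of_add_le_of_nonneg_left c (by norm_num))) (by positivity)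

/-- the literal form -/
def lfc (Φ : Gau S ι) (V : ∀ k, Setoid (S.F k).Ω) (A : ∀ k, (S.F k).Ω → Matrix ι ι ℝ)
    (hm : ∀ k ω ω', (S.F k).μ ω ≠ 0 → (S.F k).μ ω' ≠ 0 → V k ω ω' → (S.F k).Z ω ω' → A k ω = A k ω') : LF S ι where
  Z := V
  G := fun k ω => capg (Φ.cp k) (A k ω)
  meas := fun k ω ω' a b c d => by rw [hm k ω ω' a b c d]

theorem lfc_adf [Finite κ] (Φ : Gau S ι) {B : κ → Part S} (V : ∀ k, Setoid (S.F k).Ω)
    (A : ∀ k, (S.F k).Ω → Matrix ι ι ℝ)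
    (hm : ∀ k ω ω', (S.F k).μ ω ≠ 0 → (S.F k).μ ω' ≠ 0 → V k ω ω' → (S.F k).Z ω ω' → A k ω = A k ω')
    (h1 : ∀ᶠ k in UF, ∀ ω, (S.F k).μ ω ≠ 0 → (A k ω).IsSymm ∧ ∀ x, x ⬝ᵥ x ≤ qf (A k ω) x) {K : ℕ → ℝ}
    (hK : S.Sub K) (hT : Typ (fun k ω => Φ.φ k ω (A k ω) ≤ K k)) (hV : (Lab.ofZ V).DMf B) :
    Φ.Adf B (lfc Φ V A hm).fd := by
  intro η hη
  have hc := typ_and hT (cap_typ Φ A h1 hK hT)
  have hc' : Tendsto (fun k => (S.F k).pb (fun ω => ¬ (Φ.φ k ω (A k ω) ≤ K k ∧ Cpd (Φ.cp k) (A k ω)))) UF (𝓝 0) := hc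
  filter_upwards [leak_evf hV hη, hc'.eventually (gt_mem_nhds hη), hK.eventually_le hη] with k a b c
  rw [admf_lf]
  refine ⟨fun i => ?_, fun ω _ => capg_Cpd (Φ.one_le_cp k) _, ?_⟩
  · have h2 := a i
    rw [Lab.ofZ_leak V (B i) k] at h2
    exact h2
  · refine le_trans ((S.F k).pb_mono ?_) b.le
    intro ω _ h2 h3
    apply h2
    show Φ.φ k ω (capg (Φ.cp k) (A k ω)) ≤ _
    rw [capg_eq h3.2]
    exact h3.1.trans (by linarith)

end

end Pool.Agent.Helper93.NSL
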