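import Pool.Agent.Helper93.NSL.Gr
import Pool.Agent.Helper93.NSL.Lfa
import Pool.Agent.Helper87.NSL.St
import Pool.Agent.Helper84.KR.Aj
import Pool.Agent.Helper7.RD.Kv
import Pool.Agent.Helper47.FN.Lay

/-! [CUTV]: a cut gives a K-form of the truncation whose volume is less than `N`. -/

set_option autoImplicit false

namespace Pool.Agent.Helper93.NSL

open Finset Filter Topology Matrix Pool.Agent.Helper69.RK Pool.Agent.Helper31.EC Pool.Agent.Helper31.EC.Sp
open Pool.Agent.Helper40.EL Pool.Agent.Helper89.LX Pool.Agent.Helper3.LF Pool.Agent.Helper84.MT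
open Pool.Agent.Helper95.LF (PdM dv_add dv_smul)
open Pool.Agent.Helper49.KL (LF kz_ofZ)
open Pool.Agent.Helper66.MT (capg capg_Cpd capg_eq)
open Pool.Agent.Helper76.DIM (pck CutF)
open Pool.Agent.Helper38.PUR (LK)
open Pool.Agent.Helper87.NSL (cndR ST_CUTV)
open Pool.Agent.Helper14.MC (vol_eq vx gx vx_UB)

noncomputable section

variable {S : Sp} {N m D g : ℕ} {ι : Type}

/-- K-labels of the truncation -/
theorem LK.trn0 {s : MSys S N (lin g) ι} {R V : ∀ k, Setoid (S.F k).Ω} (hl : LK s R V) {b : ℝ} (h0 : 0 < b)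
    (h1 : b ≤ 1) : LK (S := S.chg S.tr b h0) (s.trn b h0 h1) R V := by
  refine ⟨?_, fun i => ?_⟩
  · filter_upwards [hl.1] with k hk
    exact fun ω ω' a => hk ⟨a.1, a.2.2⟩
  · apply Pool.Agent.Helper52.SL.nul_trn.mpr
    have h2 := hl.2 i
    have e : ∀ k, ((Lab.ofZ (S := S.chg S.tr b h0) V) k).leak (cndR (s.trn b h0 h1) R 0 i k) =
        ((Lab.ofZ V) k).leak (cndR s R 0 i k) := by
      intro k
      rw [Lab.ofZ_leak, Lab.ofZ_leak]
      rcases i with _ | i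
      · exact h_chg_top b h0 (V k) (R k)
      · have e1 : ((s.lf i).Y.chg S.tr b h0).cellv 0 k = (s.lf i).Y.cellv 0 k :=
          (Pool.Agent.Helper52.SL.cellv_chg (s.lf i).Y b h0 0 k).trans (by rw [mul_zero])
        have e2 := h_chg_top b h0 (F := S.F k) (V k) ((s.lf i).La k ⊓ Setoid.ker ((s.lf i).Y.cellv 0 k))
        refine Eq.trans ?_ e2
        exact congrArg (fun f => h (fc (F := (S.F k).chg ⊤ b h0) (V k))
          (fc (F := (S.F k).chg ⊤ b h0) ((s.lf i).La k ⊓ Setoid.ker f))) e1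
    have e3 : (fun k => ((Lab.ofZ (S := S.chg S.tr b h0) V) k).leak (cndR (s.trn b h0 h1) R 0 i k)) =
        fun k => ((Lab.ofZ V) k).leak (cndR s R 0 i k) := funext e
    rw [e3]
    exact h2

/-- forms of positive gain on an event of positive probability -/
theorem vol_lt {Q : S.VV (m + 1)} {κ : Type} {A : κ → Part S} {L : LF S (Mon (m + 1) D)} (hL : (gaq Q D).Adf A L.fd)
    (E : ∀ k, (S.F k).Ω → Prop) (hE : 0 < ul (S.pr E))
    (hg : ∀ᶠ k in UF, ∀ ω, (S.F k).μ ω ≠ 0 → E k ω → (2 : ℝ) ^ ((S.F k).n) ≤ GQ (S.dl 1 k) (L.G k ω) (Q.v k ω)) :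
    vol Q D L.fd < (m + 1 : ℕ) := by
  classical
  rw [vol_eq]
  have h1 : ul (fun k => (1 / 2 : ℝ) * S.pr E k) ≤ ul (vx Q L.fd) := by
    apply ul_mono ((UB_pr E).const_mul _) (vx_UB hL)
    filter_upwards [hg, hL 1 one_pos] with k a b
    have hn := (S.F k).pos
    show (1 / 2 : ℝ) * (S.F k).pb (E k) ≤ ∑ ω, (S.F k).μ ω * gx Q k ω (L.G k ω)
    unfold FSp.pb mass
    rw [Finset.mul_sum]
    refine Finset.sum_le_sum fun ω _ => ?_
    by_cases h0 : (S.F k).μ ω = 0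
    · have : res (S.F k).μ (E k) ω = 0 := by
        unfold res
        split_ifs
        · exact h0
        · rfl
      rw [this, h0, mul_zero, zero_mul]
    · have hc := (b.2.1 ω h0).1
      have h3 : 1 ≤ GQ (S.dl 1 k) (L.G k ω) (Q.v k ω) := one_le_GQ _ hc.1 (fun x => hc.psd.2 x) _
      have h4 := (S.F k).nn ω
      by_cases hE0 : E k ω
      · rw [res_pos _ _ _ hE0, mul_comm]
        refine mul_le_mul_of_nonneg_left ?_ h4
        unfold gx
        have h5 := Real.logb_le_logb_of_le (b := 2) (by norm_num) (by positivity) (a ω h0 hE0)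
        rw [Real.logb_rpow (by norm_num) (by norm_num)] at h5
        rw [le_div_iff₀ (by positivity)]
        linarith
      · rw [res_neg _ _ _ hE0, mul_zero]
        refine mul_nonneg h4 ?_
        unfold gx
        exact div_nonneg (Real.logb_nonneg (by norm_num) h3) (by positivity)
  have h2 : ul (fun k => (1 / 2 : ℝ) * S.pr E k) = 1 / 2 * ul (S.pr E) := ul_const_mul _ (UB_pr E)
  have h3 : 0 < ul (vx Q L.fd) := by
    rw [h2] at h1
    linarith
  linarith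

theorem gam_Jq (r : ℝ) {A : Matrix (Mon m D) (Mon m D) ℝ} (hA : ∀ x, 0 ≤ x ⬝ᵥ (A *ᵥ x)) (q : Fin m → ℝ) (a : Fin m) :
    Jq r A q a a ≤ gam r A q := by
  rw [Jq_apply]
  unfold gam
  exact Finset.single_le_sum (f := fun i => ∑ j : Fin m → Fin (D + 1), dd i (nodp D q r j) ⬝ᵥ (A *ᵥ dd i (nodp D q r j)))
    (fun i _ => Finset.sum_nonneg fun j _ => hA _) (Finset.mem_univ a)

/-- constants are small powers -/
theorem ev_const (S : Sp) (C : ℝ) {ε : ℝ} (hε : 0 < ε) : ∀ᶠ k in UF, C ≤ 2 ^ (ε * (S.F k).n) := by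
  filter_upwards [(S.Sub_const (abs_nonneg C)).eventually_le hε] with k hk
  exact (le_abs_self C).trans (by linarith)

/-- **THE EXPONENT**: forms of one factor `2 ^ (- 2 m n)` which are small on the large cell and have a large gradient with
positive probability -/
theorem exponent {P : S.VV (m + 1)} {b : ℝ} (h0 : 0 < b) (h1 : b ≤ 1)
    (G : ∀ k, (S.F k).Ω → Matrix (Mon (m + 1) D) (Mon (m + 1) D) ℝ)
    (pd : ∀ᶠ k in UF, ∀ ω, (S.F k).μ ω ≠ 0 → PdM (G k ω))
    (sm : ∀ η : ℝ, 0 < η → Typ (fun k ω => phi (S.dl 1 k) (G k ω) (P.v k ω) ≤ 2 ^ (η * (S.F k).n)))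
    (big : ∀ η : ℝ, 0 < η → Typ (fun k ω => 2 ^ (2 * (b - η) * (S.F k).n) ≤
      1 + Jq (S.dl 1 k) (G k ω) (P.v k ω) 0 0)) :
    ∃ x : ℝ, 0 ≤ x ∧ (∀ e : ℝ, 0 < e → Typ (fun k ω => 2 ^ (-(2 * x * (S.F k).n)) * phi (S.dl b k) (G k ω) (P.v k ω) ≤
      2 ^ (e * (S.F k).n))) ∧ ∃ E : ∀ k, (S.F k).Ω → Prop, 0 < ul (S.pr E) ∧ ∀ᶠ k in UF, ∀ ω, (S.F k).μ ω ≠ 0 → E k ω →
        (m + 1 : ℕ) * 2 ^ (b * (S.F k).n) ≤ 2 ^ (-(2 * x * (S.F k).n)) * gam (S.dl b k) (G k ω) (P.v k ω) := by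
  classical
  set f : ∀ k, (S.F k).Ω → ℝ := fun k ω => phi (S.dl b k) (G k ω) (P.v k ω) with hf
  set X : Set ℝ := {x | 0 ≤ x ∧ Typ (fun k ω => f k ω ≤ 2 ^ (2 * x * (S.F k).n))} with hX
  -- comparison of the cells
  set C0 : ℝ := nn (m + 1) D * (Cu D * Cm (m + 1) D) ^ 2 with hC0
  have hC00 : 0 ≤ C0 := by
    have := nn_one (m + 1) D
    positivity
  have hcmp : ∀ k ω, PdM (G k ω) → f k ω ≤ C0 * 2 ^ (2 * D * (S.F k).n) * phi (S.dl 1 k) (G k ω) (P.v k ω) := by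
    intro k ω hG
    have hd1 := S.dl_pos 1 k
    have hdb := S.dl_pos b k
    have hK : 1 ≤ S.dl b k / S.dl 1 k := by
      rw [le_div_iff₀ hd1, one_mul]
      exact S.dl_anti h1 k
    have h2 := phi_comp (G k ω) hG (S.dl 1 k) (S.dl b k) (S.dl b k / S.dl 1 k) hd1 hdb.le hK (P.v k ω) (P.v k ω)
      (fun i => by
        rw [sub_self, abs_zero, zero_add, div_mul_cancel₀ _ hd1.ne'])
    refine h2.trans ?_
    have h3 : 0 ≤ phi (S.dl 1 k) (G k ω) (P.v k ω) := phi_nonneg _ (fun x => hG.nonneg x) _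
    refine mul_le_mul_of_nonneg_right ?_ h3
    have hCu := Cu_one D
    have hCm := Cm_one (m + 1) D
    have hnn := nn_one (m + 1) D
    have h4 : S.dl b k / S.dl 1 k ≤ 2 ^ ((S.F k).n) := by
      rw [div_eq_mul_inv, inv_dl_one]
      calc S.dl b k * 2 ^ ((S.F k).n) ≤ 1 * 2 ^ ((S.F k).n) := by
            apply mul_le_mul_of_nonneg_right _ (by positivity)
            have := S.dl_anti h0.le k
            have e : S.dl 0 k = 1 := by
              unfold Sp.dl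
              rw [zero_mul, neg_zero, Real.rpow_zero]
            rwa [e] at this
        _ = _ := one_mul _
    have h5 : (S.dl b k / S.dl 1 k) ^ D ≤ (2 ^ ((S.F k).n)) ^ D := pow_le_pow_left₀ (by positivity) h4 D
    have h6 : ((2 : ℝ) ^ ((S.F k).n)) ^ D = 2 ^ (D * (S.F k).n) := by
      rw [← Real.rpow_natCast, ← Real.rpow_mul (by norm_num)]
      congr 1
      ring
    have h7 : (2 : ℝ) ^ (2 * D * (S.F k).n) = (2 ^ (D * (S.F k).n)) ^ 2 := by
      rw [← Real.rpow_natCast, ← Real.rpow_mul (by norm_num)]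
      congr 1
      push_cast
      ring
    rw [h6] at h5
    have h8 : 0 ≤ Cu D * Cm (m + 1) D := by positivity
    calc nn (m + 1) D * (Cu D * Cm (m + 1) D * (S.dl b k / S.dl 1 k) ^ D) ^ 2
        ≤ nn (m + 1) D * (Cu D * Cm (m + 1) D * 2 ^ (D * (S.F k).n)) ^ 2 := by
          apply mul_le_mul_of_nonneg_left _ (by linarith)
          apply pow_le_pow_left₀ (by positivity)
          exact mul_le_mul_of_nonneg_left h5 h8
      _ = C0 * 2 ^ (2 * D * (S.F k).n) := by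
          rw [h7, hC0]
          ring
  have hXne : ((D : ℝ) + 1) ∈ X := by
    refine ⟨by positivity, typ_mono (sm 1 one_pos) ?_⟩
    filter_upwards [pd, ev_const S C0 one_pos] with k a c ω hω h2
    refine (hcmp k ω (a ω hω)).trans ?_
    have e1 : (2 : ℝ) ^ (2 * ((D : ℝ) + 1) * (S.F k).n) = 2 ^ (1 * (S.F k).n) * 2 ^ (2 * D * (S.F k).n) *
        2 ^ (1 * (S.F k).n) := by
      rw [← Real.rpow_add (by norm_num), ← Real.rpow_add (by norm_num)]
      congr 1
      ring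
    rw [e1]
    have h3 : 0 ≤ phi (S.dl 1 k) (G k ω) (P.v k ω) := phi_nonneg _ (fun x => (a ω hω).nonneg x) _
    exact mul_le_mul (mul_le_mul_of_nonneg_right c (by positivity)) h2 h3 (by positivity)
  have hXb : BddBelow X := ⟨0, fun _ hx => hx.1⟩
  set x := sInf X with hx
  have hx0 : 0 ≤ x := le_csInf ⟨_, hXne⟩ fun _ hx => hx.1
  have hup : ∀ e : ℝ, 0 < e → Typ (fun k ω => f k ω ≤ 2 ^ (2 * x * (S.F k).n) * 2 ^ (e * (S.F k).n)) := by
    intro e he
    obtain ⟨y, hy, hyx⟩ := exists_lt_of_csInf_lt ⟨_, hXne⟩ (show sInf X < x + e / 2 by linarith)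
    refine typ_mono hy.2 (Eventually.of_forall fun k ω _ h2 => h2.trans ?_)
    rw [← Real.rpow_add (by norm_num)]
    apply Real.rpow_le_rpow_of_exponent_le (by norm_num)
    have := (S.F k).pos
    nlinarith
  have hinv : ∀ k, (2 : ℝ) ^ (-(2 * x * (S.F k).n)) * 2 ^ (2 * x * (S.F k).n) = 1 := by
    intro k
    rw [← Real.rpow_add (by norm_num), neg_add_cancel, Real.rpow_zero]
  refine ⟨x, hx0, fun e he => ?_, ?_⟩
  · refine typ_mono (hup e he) (Eventually.of_forall fun k ω _ h2 => ?_)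
    calc (2 : ℝ) ^ (-(2 * x * (S.F k).n)) * f k ω
        ≤ 2 ^ (-(2 * x * (S.F k).n)) * (2 ^ (2 * x * (S.F k).n) * 2 ^ (e * (S.F k).n)) :=
          mul_le_mul_of_nonneg_left h2 (by positivity)
      _ = 2 ^ (e * (S.F k).n) := by rw [← mul_assoc, hinv, one_mul]
  · have hCu := Cu_one D
    have hCm := Cm_one (m + 1) D
    have hnn := nn_one (m + 1) D
    have hm1 : (1 : ℝ) ≤ (m + 1 : ℕ) := by exact_mod_cast Nat.succ_pos m
    have hdb2 : ∀ k, S.dl b k ^ 2 = 2 ^ (-(2 * b * (S.F k).n)) := by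
      intro k
      unfold Sp.dl
      rw [← Real.rpow_natCast, ← Real.rpow_mul (by norm_num)]
      congr 1
      push_cast
      ring
    rcases hx0.lt_or_eq with hx1 | hx1
    · -- a positive exponent
      set ε : ℝ := min x b / 4 with hε
      have hmin : 0 < min x b := lt_min hx1 h0
      have hε0 : 0 < ε := by positivity
      have hεx : ε ≤ x / 4 := by
        have := min_le_left x b
        rw [hε]
        linarith
      have hεb : ε ≤ b / 4 := by
        have := min_le_right x b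
        rw [hε]
        linarith
      have hnot : ¬ Typ (fun k ω => f k ω ≤ 2 ^ (2 * (x - ε) * (S.F k).n)) := by
        intro h2
        have h3 : x ≤ x - ε := csInf_le hXb ⟨by linarith, h2⟩
        linarith
      set E0 : ∀ k, (S.F k).Ω → Prop := fun k ω => ¬ f k ω ≤ 2 ^ (2 * (x - ε) * (S.F k).n) with hE0
      have hE0p : 0 < ul (S.pr E0) := by
        by_contra h2
        apply hnot
        have h3 : 0 ≤ ul (S.pr E0) := const_le_ul (UB_pr E0) (Eventually.of_forall fun k => pr_nonneg E0 k)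
        have h4 : ul (S.pr E0) = 0 := le_antisymm (not_lt.mp h2) h3
        have h5 := ul_tendsto (UB_pr E0)
        rw [h4] at h5
        exact h5
      refine ⟨fun k ω => E0 k ω ∧ phi (S.dl 1 k) (G k ω) (P.v k ω) ≤ 2 ^ (ε * (S.F k).n),
        hE0p.trans_le (Pool.Agent.Helper24.T3.ul_pr_and_typ (sm ε hε0)), ?_⟩
      set C1 : ℝ := nn (m + 1) D * (2 * ((m + 1 : ℕ) * Cm (m + 1) D ^ 2)) with hC1
      have hC1p : 0 < C1 := by positivity
      filter_upwards [pd, ev_const S (4 * nn (m + 1) D) (show 0 < 2 * x - 3 * ε by linarith),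
        ev_const S (2 * C1 * (m + 1 : ℕ)) (show 0 < b - 2 * ε by linarith)] with k a c d ω hω hE
      obtain ⟨e1, e2⟩ := hE
      have e1' := not_le.mp e1
      have h2 := phi_grad (G k ω) (a ω hω) (S.dl b k) (S.dl 1 k) (S.dl_pos b k) (P.v k ω)
      have h3 : f k ω ≤ nn (m + 1) D * 2 * 2 ^ (ε * (S.F k).n) + C1 * (S.dl b k ^ 2 * gam (S.dl b k) (G k ω) (P.v k ω)) := by
        refine h2.trans ?_
        have h4 : nn (m + 1) D * 2 * phi (S.dl 1 k) (G k ω) (P.v k ω) ≤ nn (m + 1) D * 2 * 2 ^ (ε * (S.F k).n) :=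
          mul_le_mul_of_nonneg_left e2 (by positivity)
        refine le_trans (le_of_eq ?_) (add_le_add_left h4 _)
        rw [hC1]
        ring
      have h5 : nn (m + 1) D * 2 * 2 ^ (ε * (S.F k).n) ≤ 2 ^ (2 * (x - ε) * (S.F k).n) / 2 := by
        have e3 : (2 : ℝ) ^ (2 * (x - ε) * (S.F k).n) = 2 ^ ((2 * x - 3 * ε) * (S.F k).n) * 2 ^ (ε * (S.F k).n) := by
          rw [← Real.rpow_add (by norm_num)]
          congr 1
          ring
        rw [e3]
        have h6 : (0 : ℝ) < 2 ^ (ε * (S.F k).n) := by positivity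
        nlinarith
      rw [hdb2] at h3
      set gm := gam (S.dl b k) (G k ω) (P.v k ω) with hgm
      have h7 : 2 ^ (2 * (x - ε) * (S.F k).n) / 2 ≤ C1 * (2 ^ (-(2 * b * (S.F k).n)) * gm) := by linarith
      -- multiply
      have e4 : (2 : ℝ) ^ (2 * (x - ε) * (S.F k).n) = 2 ^ (2 * x * (S.F k).n) * 2 ^ (-(2 * b * (S.F k).n)) *
          (2 ^ (b * (S.F k).n) * 2 ^ ((b - 2 * ε) * (S.F k).n)) := by
        rw [← Real.rpow_add (by norm_num), ← Real.rpow_add (by norm_num), ← Real.rpow_add (by norm_num)]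
        congr 1
        ring
      have h8 : (2 : ℝ) ^ (2 * x * (S.F k).n) * (2 ^ (b * (S.F k).n) * 2 ^ ((b - 2 * ε) * (S.F k).n)) / 2 ≤ C1 * gm := by
        have h9 : (0 : ℝ) < 2 ^ (-(2 * b * (S.F k).n)) := by positivity
        rw [e4] at h7
        refine le_of_mul_le_mul_left ?_ h9
        calc (2 : ℝ) ^ (-(2 * b * (S.F k).n)) *
              (2 ^ (2 * x * (S.F k).n) * (2 ^ (b * (S.F k).n) * 2 ^ ((b - 2 * ε) * (S.F k).n)) / 2)
            = 2 ^ (2 * x * (S.F k).n) * 2 ^ (-(2 * b * (S.F k).n)) *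
              (2 ^ (b * (S.F k).n) * 2 ^ ((b - 2 * ε) * (S.F k).n)) / 2 := by ring
          _ ≤ C1 * (2 ^ (-(2 * b * (S.F k).n)) * gm) := h7
          _ = 2 ^ (-(2 * b * (S.F k).n)) * (C1 * gm) := by ring
      have h10 : C1 * ((m + 1 : ℕ) * 2 ^ (b * (S.F k).n)) ≤ C1 * (2 ^ (-(2 * x * (S.F k).n)) * gm) := by
        have h11 : (0 : ℝ) < 2 ^ (-(2 * x * (S.F k).n)) := by positivity
        have h12 := mul_le_mul_of_nonneg_left h8 h11.le
        have e5 : (2 : ℝ) ^ (-(2 * x * (S.F k).n)) * (2 ^ (2 * x * (S.F k).n) * (2 ^ (b * (S.F k).n) *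
            2 ^ ((b - 2 * ε) * (S.F k).n)) / 2) = 2 ^ (b * (S.F k).n) * 2 ^ ((b - 2 * ε) * (S.F k).n) / 2 := by
          have := hinv k
          calc (2 : ℝ) ^ (-(2 * x * (S.F k).n)) * (2 ^ (2 * x * (S.F k).n) * (2 ^ (b * (S.F k).n) *
              2 ^ ((b - 2 * ε) * (S.F k).n)) / 2) = (2 ^ (-(2 * x * (S.F k).n)) * 2 ^ (2 * x * (S.F k).n)) *
              (2 ^ (b * (S.F k).n) * 2 ^ ((b - 2 * ε) * (S.F k).n) / 2) := by ring
            _ = _ := by rw [this, one_mul]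
        rw [e5] at h12
        have h13 : C1 * ((m + 1 : ℕ) * 2 ^ (b * (S.F k).n)) ≤
            2 ^ (b * (S.F k).n) * 2 ^ ((b - 2 * ε) * (S.F k).n) / 2 := by
          have h14 : (0 : ℝ) < 2 ^ (b * (S.F k).n) := by positivity
          nlinarith
        linarith
      exact le_of_mul_le_mul_left h10 hC1p
    · -- exponent zero
      refine ⟨_, ul_pr_typ_pos _ (big (b / 8) (by positivity)), ?_⟩
      have hC0p : 0 < C0 := by
        rw [hC0]
        positivity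
      filter_upwards [pd, ev_const S (C0 * (m + 1 : ℕ) + 1) (show 0 < 3 * b / 4 by linarith)] with k a c ω hω hE
      rw [← hx1]
      have e1 : (2 : ℝ) ^ (-(2 * (0 : ℝ) * (S.F k).n)) = 1 := by
        rw [mul_zero, zero_mul, neg_zero, Real.rpow_zero]
      rw [e1, one_mul]
      have hn := (S.F k).pos
      have h2 := gam_Jq (S.dl 1 k) (fun y => (a ω hω).nonneg y) (P.v k ω) 0
      have h3 := gam_comp (G k ω) (a ω hω) (S.dl b k) (S.dl 1 k) 1 (S.dl_pos b k) (S.dl_pos 1 k).le le_rfl (P.v k ω)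
        (P.v k ω) (fun i => by
          rw [sub_self, abs_zero, zero_add, one_mul]
          exact S.dl_anti h1 k)
      rw [one_pow, mul_one, ← hC0] at h3
      have e2 : (2 : ℝ) ^ (2 * (b - b / 8) * (S.F k).n) = 2 ^ (b * (S.F k).n) * 2 ^ (3 * b / 4 * (S.F k).n) := by
        rw [← Real.rpow_add (by norm_num)]
        congr 1
        ring
      rw [e2] at hE
      have h4 : (1 : ℝ) ≤ 2 ^ (b * (S.F k).n) := Real.one_le_rpow (by norm_num) (by positivity)
      have h5 : C0 * ((m + 1 : ℕ) * 2 ^ (b * (S.F k).n)) ≤ C0 * gam (S.dl b k) (G k ω) (P.v k ω) := by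
        have h6 : 2 ^ (b * (S.F k).n) * (C0 * (m + 1 : ℕ) + 1) ≤ 2 ^ (b * (S.F k).n) * 2 ^ (3 * b / 4 * (S.F k).n) :=
          mul_le_mul_of_nonneg_left c (by positivity)
        nlinarith
      exact le_of_mul_le_mul_left h5 hC0p

theorem qf_one_add_smul (c : ℝ) (A : Matrix (Mon m D) (Mon m D) ℝ) (y : Mon m D → ℝ) :
    y ⬝ᵥ ((1 + c • A) *ᵥ y) = y ⬝ᵥ y + c * (y ⬝ᵥ (A *ᵥ y)) := by
  rw [dv_add, dv_smul, Matrix.one_mulVec]

/-- **[CUTV]** -/
theorem st_cutv : ST_CUTV := by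
  intro S N g r v s R V σ b h0 h1 D G hv hD hLK hC
  classical
  obtain ⟨p, hp⟩ : ∃ p, ∀ i, σ i ≠ p := by
    by_contra hc
    push Not at hc
    have h2 : Fintype.card (Fin N) ≤ Fintype.card (Fin v) := Fintype.card_le_of_surjective σ hc
    rw [Fintype.card_fin, Fintype.card_fin] at h2
    omega
  set τ : Fin (v + 1) → Fin N := Fin.cons p σ with hτd
  have hτ : Function.Injective τ := by
    rw [hτd, Fin.cons_injective_iff]
    exact ⟨fun ⟨i, hi⟩ => hp i hi, hC.inj⟩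
  set P : S.VV (v + 1) := pck s.Q τ with hP
  -- the forms
  set Gk : ℕ → Prop := fun k => ∀ ω ω', (S.F k).μ ω ≠ 0 → (S.F k).μ ω' ≠ 0 → (S.F k).Z ω ω' → V k ω ω' →
    G p k ω = G p k ω' with hGk
  set G1 : ∀ k, (S.F k).Ω → Matrix (Mon (v + 1) D) (Mon (v + 1) D) ℝ := fun k ω => if Gk k then G p k ω else 1 with hG1
  have hev : ∀ᶠ k in UF, ∀ ω, G1 k ω = G p k ω := by
    filter_upwards [hC.ms p hp] with k hk ω
    exact if_pos hk
  have pd : ∀ᶠ k in UF, ∀ ω, (S.F k).μ ω ≠ 0 → PdM (G1 k ω) := by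
    filter_upwards [hev, hC.pd p hp] with k a b' ω hω
    rw [a ω]
    exact b' ω hω
  have sm : ∀ η : ℝ, 0 < η → Typ (fun k ω => phi (S.dl 1 k) (G1 k ω) (P.v k ω) ≤ 2 ^ (η * (S.F k).n)) := by
    intro η hη
    refine typ_mono (hC.sm p hp η hη) ?_
    filter_upwards [hev] with k a ω _ h2
    rw [a ω]
    exact h2
  have big : ∀ η : ℝ, 0 < η → Typ (fun k ω => 2 ^ (2 * (b - η) * (S.F k).n) ≤
      1 + Jq (S.dl 1 k) (G1 k ω) (P.v k ω) 0 0) := by
    intro η hη
    refine typ_mono (hC.big p hp η hη) ?_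
    filter_upwards [hev] with k a ω _ h2
    rw [a ω]
    exact h2
  obtain ⟨x, hx0, hxs, E, hE, hEg⟩ := exponent h0 h1 G1 pd sm big
  obtain ⟨K, hK, hKT⟩ := typ_sub_le (S := S) (fun k ω => 2 ^ (-(2 * x * (S.F k).n)) *
    phi (S.dl b k) (G1 k ω) (P.v k ω)) hxs
  set T : Sp := S.chg S.tr b h0 with hT
  set P' : T.VV (v + 1) := P.chg S.tr b h0 with hP'
  set c : ℕ → ℝ := fun k => 2 ^ (-(2 * x * (S.F k).n)) with hc
  have hc0 : ∀ k, 0 < c k := fun k => by
    show (0 : ℝ) < 2 ^ (-(2 * x * (S.F k).n))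
    positivity
  set A : ∀ k, (T.F k).Ω → Matrix (Mon (v + 1) D) (Mon (v + 1) D) ℝ := fun k ω => 1 + c k • G1 k ω with hA
  have hm : ∀ k (ω ω' : (T.F k).Ω), (T.F k).μ ω ≠ 0 → (T.F k).μ ω' ≠ 0 → V k ω ω' → (T.F k).Z ω ω' →
      A k ω = A k ω' := by
    intro k ω ω' a b' c' d
    have h2 : G1 k ω = G1 k ω' := by
      by_cases hk : Gk k
      · show (if Gk k then G p k ω else 1) = if Gk k then G p k ω' else 1
        rw [if_pos hk, if_pos hk]
        exact hk ω ω' a b' d.2 c'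
      · show (if Gk k then G p k ω else 1) = if Gk k then G p k ω' else 1
        rw [if_neg hk, if_neg hk]
    show 1 + c k • G1 k ω = 1 + c k • G1 k ω'
    rw [h2]
  have hA1 : ∀ᶠ k in UF, ∀ ω, (T.F k).μ ω ≠ 0 → (A k ω).IsSymm ∧ ∀ y, y ⬝ᵥ y ≤ qf (A k ω) y := by
    filter_upwards [pd] with k a ω hω
    have hG := a ω hω
    refine ⟨Matrix.isSymm_one.add (hG.1.smul _), fun y => ?_⟩
    show y ⬝ᵥ y ≤ y ⬝ᵥ ((1 + c k • G1 k ω) *ᵥ y)
    rw [qf_one_add_smul]
    have := mul_nonneg (hc0 k).le (hG.nonneg y)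
    linarith
  obtain ⟨K1, hK1, hone⟩ := (gaq P' D).one
  have hφ : ∀ k (ω : (T.F k).Ω), (gaq P' D).φ k ω (A k ω) = (gaq P' D).φ k ω 1 +
      c k * phi (S.dl b k) (G1 k ω) (P.v k ω) := by
    intro k ω
    have e1 : T.dl 1 k = S.dl b k := by
      rw [hT, chg_dl, mul_one]
    show phi (T.dl 1 k) (1 + c k • G1 k ω) (P'.v k ω) = phi (T.dl 1 k) 1 (P'.v k ω) +
      c k * phi (S.dl b k) (G1 k ω) (P.v k ω)
    rw [phi_add, phi_smul, e1]
    rfl
  have hKK : T.Sub fun k => K1 k + K k := hK1.add (chg_sub S.tr b h0 hK)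
  have hTT : Typ (S := T) (fun k ω => (gaq P' D).φ k ω (A k ω) ≤ K1 k + K k) := by
    have hKT' : Typ (S := T) (fun k ω => c k * phi (S.dl b k) (G1 k ω) (P.v k ω) ≤ K k) := hKT
    refine typ_mono hKT' ?_
    filter_upwards [hone] with k a ω hω h2
    rw [hφ]
    exact add_le_add (a ω hω) h2
  have hV := (LK.trn0 hLK h0 h1).2
  have hlit := (LK.trn0 hLK h0 h1).1
  set L : LF T (Mon (v + 1) D) := lfc (gaq P' D) V A hm with hL
  have hLa : (gaq P' D).Adf (cndR (s.trn b h0 h1) R 0) L.fd := lfc_adf (gaq P' D) V A hm hA1 hKK hTT hV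
  have hcap := cap_typ (gaq P' D) A hA1 hKK hTT
  -- the volume
  have hvol : vol P' D L.fd < (v + 1 : ℕ) := by
    have hE' : 0 < ul (T.pr E) := hE
    refine vol_lt hLa (fun k ω => E k ω ∧ Cpd ((gaq P' D).cp k) (A k ω))
      (hE'.trans_le (Pool.Agent.Helper24.T3.ul_pr_and_typ hcap)) ?_
    filter_upwards [hEg, pd] with k a d ω hω hE2
    obtain ⟨e1, e2⟩ := hE2
    have hG := d ω hω
    have h2 := a ω hω e1
    have e3 : T.dl 1 k = S.dl b k := by
      rw [hT, chg_dl, mul_one]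
    have e4 : L.G k ω = A k ω := capg_eq e2
    rw [e4, e3]
    have h3 := Pool.Agent.Helper47.FN.gam_le_GQ (S.dl b k) e2.1 (fun y => e2.psd.2 y) (P'.v k ω) (Nat.succ_pos v)
    have h4 : c k * gam (S.dl b k) (G1 k ω) (P.v k ω) ≤ gam (S.dl b k) (A k ω) (P'.v k ω) := by
      rw [← gam_smul]
      apply gam_mono
      intro y
      show y ⬝ᵥ ((c k • G1 k ω) *ᵥ y) ≤ y ⬝ᵥ ((1 + c k • G1 k ω) *ᵥ y)
      rw [qf_one_add_smul, dv_smul]
      have := dot_self_nonneg y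
      linarith
    have h5 : ((v + 1 : ℕ) : ℝ) * 2 ^ (b * (S.F k).n) ≤ (v + 1 : ℕ) * GQ (S.dl b k) (A k ω) (P'.v k ω) := by
      linarith
    have h6 : (0 : ℝ) < (v + 1 : ℕ) := by exact_mod_cast Nat.succ_pos v
    exact le_of_mul_le_mul_left h5 h6
  -- all coordinates
  obtain ⟨y, hy⟩ := (gaq (s.trn b h0 h1).Q D).exists_optfK (LC.kz (S := T) fun k => fc (R k))
    (cndR (s.trn b h0 h1) R 0)
  refine ⟨y, hy.1, ?_⟩
  have hPQ : ∀ k ω a, P'.v k ω a = (s.trn b h0 h1).Q.v k ω (τ a) := fun _ _ _ => rfl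
  have h2 := Pool.Agent.Helper84.KR.optK_prt (σ := τ) (hσ := hτ) hPQ hy
  have h3 : (gaq P' D).AdfK (LC.kz (S := T) fun k => fc (R k)) (cndR (s.trn b h0 h1) R 0) L.fd :=
    ⟨hLa, kz_ofZ hlit⟩
  have h4 := Pool.Agent.Helper7.RD.optK_vol_le h2 h3
  have h5 := Pool.Agent.Helper84.KR.prt_vol (hσ := hτ) hPQ hy.1.1
  linarith

end

end Pool.Agent.Helper93.NSL
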