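import Pool.Agent.Helper84.MT.Fis

/-! The size of a form on a large cell is bounded by its size on a small cell and by its gradient on the large cell. -/

set_option autoImplicit false

namespace Pool.Agent.Helper93.NSL

open Finset MvPolynomial Matrix Pool.Agent.Helper3.LF Pool.Agent.Helper84.MT
open Pool.Agent.Helper95.LF (PdM)

noncomputable section

variable {m D : ℕ}

theorem ph_node0 (q : MvPolynomial (Fin m) ℝ) (r : ℝ) (p : Fin m → ℝ) : (eval p q) ^ 2 ≤ ph D q r p := by
  have h := Finset.single_le_sum (f := fun j : Fin m → Fin (D + 1) => (eval (nodp D p r j) q) ^ 2)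
    (fun _ _ => sq_nonneg _) (Finset.mem_univ fun _ => 0)
  have e : nodp D p r (fun _ => 0) = p := by
    funext i
    unfold nodp nod
    simp
  simp only [e] at h
  exact h

/-- one polynomial -/
theorem ph_grad (q : MvPolynomial (Fin m) ℝ) (hq : q.totalDegree ≤ D) (r r' : ℝ) (hr : 0 < r) (p : Fin m → ℝ) :
    ph D q r p ≤ nn m D * (2 * ph D q r' p + 2 * (m * Cm m D ^ 2 * (r ^ 2 * ga D q r p))) := by
  have key : ∀ j : Fin m → Fin (D + 1), (eval (nodp D p r j) q) ^ 2 ≤
      2 * ph D q r' p + 2 * (m * Cm m D ^ 2 * (r ^ 2 * ga D q r p)) := by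
    intro j
    set e : Fin m → ℝ := fun i => r * nod D (j i) with he
    have he1 : ∀ i, |e i| ≤ r := fun i => by
      rw [he, abs_mul, abs_of_pos hr, abs_of_nonneg (nod_nonneg D _)]
      calc r * nod D (j i) ≤ r * 1 :=
            mul_le_mul_of_nonneg_left (nod_le D _ (Nat.le_of_lt_succ (j i).2)) hr.le
        _ = r := mul_one _
    set f := lnp p e q with hf
    have h0 : f.eval 0 = eval p q := by
      rw [hf, lnp_eval]
      congr 1
      congr 1
      funext i
      ring
    have h1 : f.eval 1 = eval (nodp D p r j) q := by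
      rw [hf, lnp_eval]
      congr 1
      congr 1
      funext i
      rw [one_mul]
      rfl
    obtain ⟨c, hc, hc1⟩ := exists_hasDerivAt_eq_slope (fun x => f.eval x) (fun x => (Polynomial.derivative f).eval x)
      (zero_lt_one' ℝ) (Polynomial.continuous f).continuousOn (fun x _ => Polynomial.hasDerivAt f x)
    have h2 : (Polynomial.derivative f).eval c = ∑ a, e a * eval (fun k => p k + c * e k) (pderiv a q) := by
      rw [hf, lnp_deriv, lnp_eval]
      unfold dir
      rw [map_sum]
      exact Finset.sum_congr rfl fun a _ => by rw [map_mul, eval_C]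
    have h3 : eval (nodp D p r j) q - eval p q = (Polynomial.derivative f).eval c := by
      rw [hc1, ← h0, ← h1]
      ring
    have h4 : ∀ a, (e a * eval (fun k => p k + c * e k) (pderiv a q)) ^ 2 ≤
        r ^ 2 * (Cm m D ^ 2 * ph D (pderiv a q) r p) := by
      intro a
      rw [mul_pow]
      have h5 := val_le (D := D) (pderiv a q) (pderiv_tdeg q hq a) r 1 hr le_rfl p (fun k => p k + c * e k) (fun i => by
        have : p i + c * e i - p i = c * e i := by ring
        rw [this, abs_mul, abs_of_pos hc.1]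
        calc c * |e i| ≤ 1 * r := mul_le_mul hc.2.le (he1 i) (abs_nonneg _) zero_le_one)
      rw [one_pow, mul_one] at h5
      have h6 : e a ^ 2 ≤ r ^ 2 := by
        rw [← sq_abs]
        exact pow_le_pow_left₀ (abs_nonneg _) (he1 a) 2
      exact mul_le_mul h6 h5 (sq_nonneg _) (sq_nonneg _)
    have h7 : (eval (nodp D p r j) q - eval p q) ^ 2 ≤ m * Cm m D ^ 2 * (r ^ 2 * ga D q r p) := by
      rw [h3, h2]
      have h8 := sq_sum_le_card_mul_sum_sq (s := (Finset.univ : Finset (Fin m)))
        (f := fun a => e a * eval (fun k => p k + c * e k) (pderiv a q))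
      rw [Finset.card_univ, Fintype.card_fin] at h8
      refine h8.trans ?_
      have h9 : ∑ a, (e a * eval (fun k => p k + c * e k) (pderiv a q)) ^ 2 ≤
          Cm m D ^ 2 * (r ^ 2 * ga D q r p) := by
        refine (Finset.sum_le_sum fun a _ => h4 a).trans (le_of_eq ?_)
        unfold ga
        rw [Finset.mul_sum, Finset.mul_sum]
        exact Finset.sum_congr rfl fun a _ => by ring
      rw [mul_assoc]
      exact mul_le_mul_of_nonneg_left h9 (Nat.cast_nonneg m)
    have h10 : (eval p q) ^ 2 ≤ ph D q r' p := ph_node0 q r' p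
    nlinarith [sq_nonneg (eval (nodp D p r j) q - 2 * eval p q)]
  unfold ph
  refine (Finset.sum_le_card_nsmul _ _ _ fun j _ => key j).trans (le_of_eq ?_)
  rw [nsmul_eq_mul, card_nodes]
  rfl

/-- forms -/
theorem phi_grad (A : Matrix (Mon m D) (Mon m D) ℝ) (hA : PdM A) (r r' : ℝ) (hr : 0 < r) (p : Fin m → ℝ) :
    phi r A p ≤ nn m D * (2 * phi r' A p + 2 * (m * Cm m D ^ 2 * (r ^ 2 * gam r A p))) := by
  obtain ⟨C, -, h1, h2⟩ := exists_rows A hA
  rw [h1, h1, h2]
  refine (Finset.sum_le_sum fun k _ => ph_grad (pol (C k)) (pol_deg _) r r' hr p).trans (le_of_eq ?_)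
  rw [← Finset.mul_sum, Finset.sum_add_distrib]
  simp only [← Finset.mul_sum]

end

end Pool.Agent.Helper93.NSL
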